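import Mathlib
import Pool.Agent.N290.RI.Stm
import Pool.Agent.N290.RI.Un

/-!
# Bergman projection of a bounded function on the ball of `ℂ²` (part `Cmain` of helper290's
project RI); proof by helper695 after the paper proof of helper290.
-/

set_option autoImplicit false

open Complex MeasureTheory Set Filter Topology
open scoped ENNReal

namespace Pool.Agent.N695.RI

open Pool.Agent.N290.RI hiding ker

theorem norm_fst_lt {ξ : ℂ × ℂ} (hξ : ξ ∈ B) : ‖ξ.1‖ < 1 := by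
  have h : N ξ < 1 := hξ
  unfold N at h
  nlinarith [sq_nonneg ‖ξ.2‖, norm_nonneg ξ.1]

theorem u_lower {x : ℝ} (h0 : 0 ≤ x) {ξ : ℂ × ℂ} (hξ : ξ ∈ B) :
    1 - x ≤ ‖1 - (x : ℂ) * ξ.1‖ := by
  have h1 := norm_fst_lt hξ
  have h2 : ‖(1 : ℂ)‖ - ‖(x : ℂ) * ξ.1‖ ≤ ‖1 - (x : ℂ) * ξ.1‖ := norm_sub_norm_le _ _
  rw [norm_one, norm_mul, Complex.norm_real, Real.norm_eq_abs, abs_of_nonneg h0] at h2
  have h3 : x * ‖ξ.1‖ ≤ x * 1 := mul_le_mul_of_nonneg_left h1.le h0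
  linarith

theorem u_ne {x : ℝ} (h0 : 0 ≤ x) (h1 : x < 1) {ξ : ℂ × ℂ} (hξ : ξ ∈ B) :
    1 - (x : ℂ) * ξ.1 ≠ 0 := by
  have := u_lower h0 hξ
  intro h
  rw [h, norm_zero] at this
  linarith

theorem zero_mem_B : (0 : ℂ × ℂ) ∈ B := by
  rw [mem_B]; simp [N]

theorem contDiff_u (x : ℝ) : ContDiff ℝ 1 (fun ξ : ℂ × ℂ => 1 - (x : ℂ) * ξ.1) := by
  fun_prop

theorem contDiffOn_uinv {x : ℝ} (h0 : 0 ≤ x) (h1 : x < 1) :
    ContDiffOn ℝ 1 (fun ξ : ℂ × ℂ => (1 - (x : ℂ) * ξ.1)⁻¹) B :=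
  (contDiff_u x).contDiffOn.inv (fun _ hξ => u_ne h0 h1 hξ)

theorem contDiffOn_Ph {x : ℝ} (h0 : 0 ≤ x) (h1 : x < 1) : ContDiffOn ℝ 1 (Ph x) B := by
  have hu := contDiffOn_uinv h0 h1
  have e : Ph x = fun ξ : ℂ × ℂ => (((x : ℂ) - ξ.1) * (1 - (x : ℂ) * ξ.1)⁻¹,
      (-((Real.sqrt (1 - x ^ 2) : ℝ) : ℂ) * ξ.2) * (1 - (x : ℂ) * ξ.1)⁻¹) := by
    ext ξ
    · simp [Ph, div_eq_mul_inv]
    · simp [Ph, div_eq_mul_inv]
  rw [e]
  refine ContDiffOn.prodMk ?_ ?_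
  · exact ContDiffOn.mul (by fun_prop) hu
  · exact ContDiffOn.mul (by fun_prop) hu

theorem measurable_Ph (x : ℝ) : Measurable (Ph x) := by
  unfold Ph
  fun_prop

theorem measurable_un (c : ℂ × ℂ) : Measurable (un c) := by
  unfold un
  fun_prop

theorem contDiff_un (c : ℂ × ℂ) : ContDiff ℝ 1 (un c) := by
  unfold un
  fun_prop

theorem measurable_ker (z : ℂ × ℂ) : Measurable (N290.RI.ker z) := by
  unfold Pool.Agent.N290.RI.ker Dl ip N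
  fun_prop

/-- holomorphic cube of the inverse -/
theorem hol_v {x : ℝ} (h0 : 0 ≤ x) (h1 : x < 1) {ξ : ℂ × ℂ} (hξ : ξ ∈ B) :
    DifferentiableAt ℂ (fun ξ : ℂ × ℂ => ((1 - (x : ℂ) * ξ.1)⁻¹) ^ 3) ξ := by
  have h : DifferentiableAt ℂ (fun ξ : ℂ × ℂ => 1 - (x : ℂ) * ξ.1) ξ := by fun_prop
  exact (h.inv (u_ne h0 h1 hξ)).pow 3

theorem Cmain_of (h2 : C2) (h3 : C3) (h4 : C4) (h5 : C5) (h6 : C6)
    (h10 : volume B = ENNReal.ofReal (Real.pi ^ 2 / 2)) : Cmain := by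
  intro γ M e hγ hM he he0 hdb
  have hγm : AEStronglyMeasurable γ (volume.restrict B) :=
    hγ.continuousOn.aestronglyMeasurable B_meas
  have hpi : (0 : ℝ) < Real.pi ^ 2 := by positivity
  refine ⟨fun z => ((2 / Real.pi ^ 2 : ℝ) : ℂ) * ∫ w in B, γ w / (1 - ip z w) ^ 3,
    (h5 γ M hγm hM).const_mul _, ?_⟩
  intro z hz
  obtain ⟨c, hc, hcz⟩ := exists_un z
  obtain ⟨x, hx⟩ : ∃ x : ℝ, x = nm z := ⟨_, rfl⟩
  rw [← hx] at hcz
  have hx0 : 0 ≤ x := hx ▸ nm_nonneg z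
  have hx1 : x < 1 := by rw [hx]; exact mem_B_nm.1 hz
  obtain ⟨hPB, hPl, hPi⟩ := h3 x hx0 hx1
  obtain ⟨-, hUi, hUl⟩ := h4 c hc
  -- the inner map
  have hφB : ∀ ξ ∈ B, un c (Ph x ξ) ∈ B := fun ξ hξ => (mem_B_un hc _).2 (hPB ξ hξ)
  have hx2 : (0 : ℝ) < 1 - x ^ 2 := by nlinarith
  obtain ⟨Γ, hΓ⟩ : ∃ Γ : ℂ × ℂ → ℂ, Γ = fun ξ => γ (un c (Ph x ξ)) * ((1 - (x : ℂ) * ξ.1)⁻¹) ^ 3 :=
    ⟨_, rfl⟩
  -- the integral
  have hint : ∫ w in B, γ w / (1 - ip z w) ^ 3 = ∫ ξ in B, Γ ξ := by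
    rw [hUi (fun w => γ w / (1 - ip z w) ^ 3), hPi]
    refine setIntegral_congr_fun B_meas ?_
    intro ξ hξ
    obtain ⟨-, -, -, -, h65, -⟩ := h6 x hx0 hx1 ξ hξ
    have hip : ip z (un c (Ph x ξ)) = ip ((x : ℂ), 0) (Ph x ξ) := by
      rw [← hcz, ip_un hc]
    simp only [hΓ]
    rw [hip, h65]
    have hu := u_ne hx0 hx1 hξ
    have hu' : starRingEnd ℂ (1 - (x : ℂ) * ξ.1) ≠ 0 := (map_ne_zero _).2 hu
    have hx3 : ((1 : ℂ) - (x : ℂ) ^ 2) ≠ 0 := by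
      have : ((1 - x ^ 2 : ℝ) : ℂ) ≠ 0 := by exact_mod_cast hx2.ne'
      simpa using this
    have hn : ((‖1 - (x : ℂ) * ξ.1‖ ^ 6 : ℝ) : ℂ) =
        ((1 - (x : ℂ) * ξ.1) * starRingEnd ℂ (1 - (x : ℂ) * ξ.1)) ^ 3 := by
      rw [cc]; push_cast; ring
    rw [Complex.ofReal_div, hn]
    push_cast
    field_simp
  have hΓ0 : Γ 0 = γ z := by
    have : Ph x 0 = ((x : ℂ), 0) := by simp [Ph]
    simp only [hΓ, this, hcz]
    simp
  have hφC : ContDiffOn ℝ 1 (fun ξ => un c (Ph x ξ)) B :=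
    (contDiff_un c).comp_contDiffOn (contDiffOn_Ph hx0 hx1)
  have hγC : ContDiffOn ℝ 1 (fun ξ => γ (un c (Ph x ξ))) B := hγ.comp hφC hφB
  have hvC : ContDiffOn ℝ 1 (fun ξ : ℂ × ℂ => ((1 - (x : ℂ) * ξ.1)⁻¹) ^ 3) B :=
    (contDiffOn_uinv hx0 hx1).pow 3
  have hΓC : ContDiffOn ℝ 1 Γ B := by
    rw [hΓ]; exact hγC.mul hvC
  have hM0 : 0 ≤ M := (norm_nonneg _).trans (hM 0 zero_mem_B)
  have hΓM : ∀ ξ ∈ B, ‖Γ ξ‖ ≤ M * ((1 - x)⁻¹) ^ 3 := by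
    intro ξ hξ
    rw [hΓ]
    simp only [norm_mul, norm_pow, norm_inv]
    refine mul_le_mul (hM _ (hφB ξ hξ)) ?_ (by positivity) hM0
    have := u_lower hx0 hξ
    have h1x : 0 < 1 - x := by linarith
    gcongr
  obtain ⟨e1, he1⟩ : ∃ e1 : ℂ × ℂ → ℝ,
      e1 = fun ξ => e (un c (Ph x ξ)) * (‖1 - (x : ℂ) * ξ.1‖⁻¹) ^ 3 := ⟨_, rfl⟩
  have he1m : Measurable e1 := by
    rw [he1]
    have h1 : Measurable (fun ξ => e (un c (Ph x ξ))) :=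
      he.comp ((measurable_un c).comp (measurable_Ph x))
    have h2 : Measurable (fun ξ : ℂ × ℂ => (‖1 - (x : ℂ) * ξ.1‖⁻¹) ^ 3) := by fun_prop
    exact h1.mul h2
  have he10 : ∀ ξ ∈ B, 0 ≤ e1 ξ := by
    intro ξ hξ
    rw [he1]
    have := he0 _ (hφB ξ hξ)
    positivity
  have hΓdb : ∀ ξ ∈ B, ∀ η, ‖db Γ ξ η‖ ≤ e1 ξ * len ξ η := by
    intro ξ hξ η
    obtain ⟨h61, h62, -, h64, -, -⟩ := h6 x hx0 hx1 ξ hξ
    have hφd : HasFDerivAt (fun ξ => un c (Ph x ξ)) ((unL c).comp (fderiv ℂ (Ph x) ξ)) ξ :=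
      (un_hasFDerivAt c (Ph x ξ)).comp ξ h61.hasFDerivAt
    have hγd : DifferentiableAt ℝ γ (un c (Ph x ξ)) :=
      ((hγ.differentiableOn (by norm_num)) _ (hφB ξ hξ)).differentiableAt
        (B_open.mem_nhds (hφB ξ hξ))
    have hgd : DifferentiableAt ℝ (fun ξ => γ (un c (Ph x ξ))) ξ :=
      ((hγC.differentiableOn (by norm_num)) _ hξ).differentiableAt (B_open.mem_nhds hξ)
    have hvd := hol_v hx0 hx1 hξ
    rw [hΓ, db_mul hgd (hvd.restrictScalars ℝ), db_hol hvd, mul_zero, zero_add,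
      db_comp hφd.differentiableAt hγd, hφd.fderiv]
    simp only [ContinuousLinearMap.comp_apply, h62]
    rw [unL_apply, norm_mul]
    have h := hdb _ (hφB ξ hξ) (un c (dPh x ξ η))
    rw [len_un hc, h64] at h
    simp only [norm_pow, norm_inv, he1]
    calc (‖1 - (x : ℂ) * ξ.1‖⁻¹) ^ 3 * ‖db γ (un c (Ph x ξ)) (un c (dPh x ξ η))‖
        ≤ (‖1 - (x : ℂ) * ξ.1‖⁻¹) ^ 3 * (e (un c (Ph x ξ)) * len ξ η) := by gcongr
      _ = e (un c (Ph x ξ)) * (‖1 - (x : ℂ) * ξ.1‖⁻¹) ^ 3 * len ξ η := by ring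
  have hest := h2 Γ _ e1 hΓC hΓM he1m he10 hΓdb
  -- the majorant
  have hmaj : ∫⁻ w in B, ENNReal.ofReal (e w * N290.RI.ker z w) =
      ∫⁻ ξ in B, ENNReal.ofReal (e1 ξ / nm ξ ^ 3) := by
    rw [hUl (fun w => ENNReal.ofReal (e w * N290.RI.ker z w)), hPl]
    · refine setLIntegral_congr_fun B_meas ?_
      intro ξ hξ
      obtain ⟨-, -, -, -, -, h66⟩ := h6 x hx0 hx1 ξ hξ
      have hu := u_ne hx0 hx1 hξ
      have hun : 0 < ‖1 - (x : ℂ) * ξ.1‖ := norm_pos_iff.2 hu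
      have hk : N290.RI.ker z (un c (Ph x ξ)) = N290.RI.ker ((x : ℂ), 0) (Ph x ξ) := by
        rw [← hcz, ker_un hc]
      have hD : Real.sqrt (Dl ((x : ℂ), 0) (Ph x ξ)) =
          (1 - x ^ 2) * nm ξ / ‖1 - (x : ℂ) * ξ.1‖ := by
        rw [h66, ← nm_sq]
        rw [show (1 - x ^ 2) ^ 2 * nm ξ ^ 2 / ‖1 - (x : ℂ) * ξ.1‖ ^ 2 =
          ((1 - x ^ 2) * nm ξ / ‖1 - (x : ℂ) * ξ.1‖) ^ 2 by ring]
        exact Real.sqrt_sq (by have := nm_nonneg ξ; positivity)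
      simp only [hk]
      rw [← ENNReal.ofReal_mul (by positivity)]
      congr 1
      unfold Pool.Agent.N290.RI.ker
      rw [hD, he1]
      simp only []
      by_cases hn : nm ξ = 0
      · simp [hn]
      · field_simp
    · have h1 : Measurable (fun ξ => e (un c ξ) * N290.RI.ker z (un c ξ)) :=
        (he.comp (measurable_un c)).mul ((measurable_ker z).comp (measurable_un c))
      exact h1.ennreal_ofReal
  rw [hmaj]
  refine le_trans ?_ hest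
  -- the constant
  have hfin : volume B ≠ ⊤ := by rw [h10]; exact ENNReal.ofReal_ne_top
  have hΓi : IntegrableOn Γ B := by
    refine ⟨hΓC.continuousOn.aestronglyMeasurable B_meas, ?_⟩
    have : IsFiniteMeasure (volume.restrict B) := ⟨by
      rw [Measure.restrict_apply_univ]; exact hfin.lt_top⟩
    refine HasFiniteIntegral.of_bounded (C := M * ((1 - x)⁻¹) ^ 3) ?_
    exact (ae_restrict_iff' B_meas).2 (Eventually.of_forall hΓM)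
  have hconst : IntegrableOn (fun _ : ℂ × ℂ => Γ 0) B := by
    rw [integrableOn_const_iff]
    · exact Or.inr hfin.lt_top
  have hsub : ∫ ξ in B, (Γ ξ - Γ 0) = (∫ ξ in B, Γ ξ) - ((Real.pi ^ 2 / 2 : ℝ) : ℂ) * Γ 0 := by
    rw [integral_sub hΓi hconst, setIntegral_const, Measure.real, h10,
      ENNReal.toReal_ofReal (by positivity), Complex.real_smul]
  have hfinal : γ z - ((2 / Real.pi ^ 2 : ℝ) : ℂ) * ∫ w in B, γ w / (1 - ip z w) ^ 3 =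
      -(((2 / Real.pi ^ 2 : ℝ) : ℂ) * ∫ ξ in B, (Γ ξ - Γ 0)) := by
    rw [hint, hsub, hΓ0]
    have hp : (Real.pi : ℂ) ≠ 0 := by exact_mod_cast Real.pi_ne_zero
    push_cast
    field_simp
    ring
  rw [hfinal, norm_neg, norm_mul]
  refine ENNReal.ofReal_le_ofReal ?_
  have hc1 : ‖((2 / Real.pi ^ 2 : ℝ) : ℂ)‖ ≤ 1 := by
    rw [Complex.norm_real, Real.norm_eq_abs, abs_of_nonneg (by positivity), div_le_one hpi]
    nlinarith [Real.pi_gt_three]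
  exact mul_le_of_le_one_left (norm_nonneg _) hc1

end Pool.Agent.N695.RI
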